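import Pool.Agent.UMG.StmtsB

/-!
# Row WSM: the sum over the wreath product
-/

set_option autoImplicit false

namespace Pool.Agent.UMG.B.H33

open Finset Pool.Agent.UMG Pool.Agent.UMG.B

/-- change of the labels -/
def lab {A A' : Type} {k : ℕ} (e : A ≃ A') (τ : A → Equiv.Perm (Fin k)) :
    A × Fin k ≃ A' × Fin k where
  toFun x := (e x.1, τ x.1 x.2)
  invFun x := (e.symm x.1, (τ (e.symm x.1)).symm x.2)
  left_inv x := by simp
  right_inv x := by simp

theorem si_wr {A A' : Type} {k : ℕ} (e : A ≃ A') (τ : A → Equiv.Perm (Fin k)) (π : Equiv.Perm A)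
    (σ : A → Equiv.Perm (Fin k)) (π' : Equiv.Perm A') (σ' : A' → Equiv.Perm (Fin k))
    (h1 : ∀ a, e (π a) = π' (e a)) (h2 : ∀ a, τ (π a) * σ a = σ' (e a) * τ a) :
    SI (Prod.fst : A × Fin k → A) (wr π σ) (Prod.fst : A' × Fin k → A') (wr π' σ') := by
  refine ⟨e, lab e τ, fun _ => rfl, ?_⟩
  rintro ⟨a, x⟩
  have h3 : (τ (π a) * σ a) x = (σ' (e a) * τ a) x := by rw [h2]
  exact Prod.ext (h1 a) h3

theorem si_lst {A A' : Type} (i : ℕ) (e : A ≃ A') (ρ : Equiv.Perm A) (ρ' : Equiv.Perm A')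
    (h : ∀ a, e (ρ a) = ρ' (e a)) :
    SI (Prod.fst : Fin (i + 1) × A → Fin (i + 1)) (wr (finRotate (i + 1)) (lst i ρ))
      (Prod.fst : Fin (i + 1) × A' → Fin (i + 1)) (wr (finRotate (i + 1)) (lst i ρ')) := by
  refine ⟨Equiv.refl _, Equiv.prodCongr (Equiv.refl _) e, fun _ => rfl, ?_⟩
  rintro ⟨v, a⟩
  refine Prod.ext rfl ?_
  show e (lst i ρ v a) = lst i ρ' v (e a)
  unfold lst
  by_cases hv : v = Fin.last i
  · rw [if_pos hv, if_pos hv]
    exact h a
  · rw [if_neg hv, if_neg hv]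
    rfl

theorem wsm (pcf : PcfStmt) (csm : CsmStmt) (cyr : CyrStmt) : WsmStmt := by
  intro Ψ hΨ m k
  induction m using Nat.strong_induction_on generalizing Ψ with
  | _ m ih =>
  rcases m with _ | m
  · have h1 : wsum 0 k (fun c => Ψ (Vc c) (Hc c) (nuc c) (gc c)) =
        Ψ (Vc []) (Hc []) (nuc []) (gc []) := by
      rw [wsum]
    rw [h1, Fintype.sum_subsingleton _ (1 : Equiv.Perm (Fin 0)),
      Fintype.sum_subsingleton _ (fun _ => 1)]
    have e1 : IsEmpty (Vc []) := inferInstanceAs (IsEmpty Empty)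
    have e2 : IsEmpty (Hc []) := inferInstanceAs (IsEmpty Empty)
    apply hΨ
    exact ⟨Equiv.equivOfIsEmpty _ _, Equiv.equivOfIsEmpty _ _, fun h => isEmptyElim h,
      fun h => isEmptyElim h⟩
  · -- the step
    have h1 := pcf k (fun A π σ => Ψ A (A × Fin k) Prod.fst (wr π σ))
      (fun A A' e τ π σ π' σ' a1 a2 => hΨ _ _ _ _ _ _ _ _ (si_wr e τ π σ π' σ' a1 a2)) m
    refine h1.trans ?_
    have h2 : wsum (m + 1) k (fun c => Ψ (Vc c) (Hc c) (nuc c) (gc c)) =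
        ∑ i ∈ range (m + 1), ((m.descFactorial i : ℕ) : ℕ) * ((k.factorial : ℕ) : ℕ) ^ i *
          csum k (fun p => wsum (m - i) k (fun c =>
            Ψ (Vc ((i + 1, p) :: c)) (Hc ((i + 1, p) :: c)) (nuc ((i + 1, p) :: c))
              (gc ((i + 1, p) :: c)))) := by
      rw [wsum]
      simp only [Nat.cast_id]
    rw [h2]
    refine Finset.sum_congr rfl (fun i hi => ?_)
    have hi' : i ≤ m := by
      have := Finset.mem_range.mp hi
      omega
    congr 1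
    -- the sum for fixed `ρ`
    have h3 : ∀ ρ : Equiv.Perm (Fin k),
        (∑ π' : Equiv.Perm (Fin (m - i)), ∑ σ' : Fin (m - i) → Equiv.Perm (Fin k),
          Ψ (Fin (i + 1) ⊕ Fin (m - i)) ((Fin (i + 1) ⊕ Fin (m - i)) × Fin k) Prod.fst
            (wr (Equiv.sumCongr (finRotate (i + 1)) π') (Sum.elim (lst i ρ) σ'))) =
        wsum (m - i) k (fun c => Ψ (Fin (i + 1) ⊕ Vc c) ((Fin (i + 1) × Fin k) ⊕ Hc c)
          (Sum.map Prod.fst (nuc c))
          (Equiv.sumCongr (wr (finRotate (i + 1)) (lst i ρ)) (gc c))) := by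
      intro ρ
      have h4 := ih (m - i) (by omega)
        (ad (Prod.fst : Fin (i + 1) × Fin k → Fin (i + 1)) (wr (finRotate (i + 1)) (lst i ρ)) Ψ)
        (hΨ.ad _ _)
      refine Eq.trans ?_ h4
      refine Finset.sum_congr rfl (fun π' _ => Finset.sum_congr rfl (fun σ' _ => ?_))
      refine hΨ _ _ _ _ _ _ _ _ ⟨Equiv.refl _, Equiv.sumProdDistrib _ _ _, ?_, ?_⟩
      · rintro ⟨v | v, a⟩ <;> rfl
      · rintro ⟨v | v, a⟩ <;> rfl
    have h5 := csm (fun A ρ => wsum (m - i) k (fun c => Ψ (Fin (i + 1) ⊕ Vc c)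
      ((Fin (i + 1) × A) ⊕ Hc c) (Sum.map Prod.fst (nuc c))
      (Equiv.sumCongr (wr (finRotate (i + 1)) (lst i ρ)) (gc c)))) (by
        intro A A' e ρ ρ' h
        show wsum _ _ _ = wsum _ _ _
        congr 1
        funext c
        exact hΨ _ _ _ _ _ _ _ _ ((si_lst i e ρ ρ' h).sum (SI.refl _ _))) k
    calc (∑ ρ : Equiv.Perm (Fin k), ∑ π' : Equiv.Perm (Fin (m - i)),
          ∑ σ' : Fin (m - i) → Equiv.Perm (Fin k),
          Ψ (Fin (i + 1) ⊕ Fin (m - i)) ((Fin (i + 1) ⊕ Fin (m - i)) × Fin k) Prod.fst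
            (wr (Equiv.sumCongr (finRotate (i + 1)) π') (Sum.elim (lst i ρ) σ')))
        = ∑ ρ : Equiv.Perm (Fin k), wsum (m - i) k (fun c => Ψ (Fin (i + 1) ⊕ Vc c)
            ((Fin (i + 1) × Fin k) ⊕ Hc c) (Sum.map Prod.fst (nuc c))
            (Equiv.sumCongr (wr (finRotate (i + 1)) (lst i ρ)) (gc c))) :=
          Finset.sum_congr rfl (fun ρ _ => h3 ρ)
      _ = csum k (fun p => wsum (m - i) k (fun c => Ψ (Fin (i + 1) ⊕ Vc c)
            ((Fin (i + 1) × PT p) ⊕ Hc c) (Sum.map Prod.fst (nuc c))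
            (Equiv.sumCongr (wr (finRotate (i + 1)) (lst i (rp p))) (gc c)))) := h5
      _ = _ := by
          congr 1
          funext p
          congr 1
          funext c
          exact hΨ _ _ _ _ _ _ _ _ ((cyr i p).sum (SI.refl _ _))

end Pool.Agent.UMG.B.H33
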