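import Pool.Agent.UMG.StmtsD

/-!
# Row EXB: exactness
-/

set_option autoImplicit false

namespace Pool.Agent.UMG.D.H33

open Finset Pool.Agent.UMG

lemma ex_lt {M : ℕ} (c : Code) (x : Fin M → ℕ) (hx : x ∈ Xs M c) (j : ℕ) (hj : j < M) :
    ex x (j + 1) < F (j + 1) (cnt c (j + 1)) := by
  have h := (Fintype.mem_piFinset.mp hx) ⟨j, hj⟩
  rw [Finset.mem_range] at h
  have e : ex x (j + 1) = x ⟨j, hj⟩ := by
    unfold ex
    rw [dif_pos (show j + 1 - 1 < M from hj)]
    rfl
  rw [e]
  exact h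

open Classical in
theorem exb (exs : ExsStmt) (bux : BuxStmt) (gcd : GcdStmt) (oui : OuiStmt) (omb : OmbStmt)
    (val : ValStmt) : ExbStmt := by
  intro K d B hd hB
  have h0 : ¬ Hit d.sum (Om d) B 0 := by
    rintro ⟨A, _, _, h⟩
    unfold out at h
    omega
  have h1 := exs K d (fun y => if Hit d.sum (Om d) B y then 1 else 0) hd (if_neg h0)
  rw [Finset.card_filter]
  have h2 : ∑ u ∈ range (TT K d), (if Hit d.sum (Om d) B (algo K d u) then 1 else 0) =
      SCL K d * gsum d (fun c => ∑ x ∈ Xs d.sum c,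
        (if Hit d.sum (Om d) B (out d.sum (gr d.length (edg d.sum c (ex x)))) then 1 else 0)) := h1
  rw [h2, ← bux d B hd hB]
  congr 1
  refine gcd ℕ d _ _ hd (fun c hc => ?_)
  have h3 : ∀ x ∈ Xs d.sum c,
      (Hit d.sum (Om d) B (out d.sum (gr d.length (edg d.sum c (ex x)))) ↔
        Iso (gr d.length (edg d.sum c (ex x))) B) := by
    intro x hx
    have hA : gr d.length (edg d.sum c (ex x)) ∈ Om d :=
      val d c (ex x) hc (fun j hj => ex_lt c x hx j hj)
    constructor
    · rintro ⟨A, hAO, hAB, hout⟩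
      have := oui d.sum d.length _ A (omb d _ hA) (omb d A hAO) hout
      rw [this]
      exact hAB
    · intro h
      exact ⟨_, hA, h, rfl⟩
  have h4 : ∑ x ∈ Xs d.sum c,
      (if Hit d.sum (Om d) B (out d.sum (gr d.length (edg d.sum c (ex x)))) then 1 else 0) =
      ((Xs d.sum c).filter (fun x => Iso (gr d.length (edg d.sum c (ex x))) B)).card := by
    rw [Finset.card_filter]
    refine Finset.sum_congr rfl (fun x hx => ?_)
    by_cases h : Iso (gr d.length (edg d.sum c (ex x))) B
    · rw [if_pos h, if_pos ((h3 x hx).mpr h)]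
    · rw [if_neg h, if_neg (fun h' => h ((h3 x hx).mp h'))]
  rw [h4]
  refine (Nat.subtype_card _ (fun x => ?_)).symm
  rw [Finset.mem_filter]

end Pool.Agent.UMG.D.H33
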