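import Pool.Agent.UMG.StmtsA

/-!
# Row PFX: all parity steps
-/

set_option autoImplicit false

namespace Pool.Agent.UMG.A.H33

open Finset Pool.Agent.UMG

lemma le_wsum (C : ℕ →₀ ℕ) (i : ℕ) (hi : 1 ≤ i) : C i ≤ C.sum fun i c => i * c := by
  by_cases h : i ∈ C.support
  · have h1 : i * C i ≤ C.sum fun i c => i * c := by
      unfold Finsupp.sum
      exact Finset.single_le_sum (f := fun i => i * C i) (fun _ _ => Nat.zero_le _) h
    exact (Nat.le_mul_of_pos_left _ hi).trans h1
  · rw [Finsupp.notMem_support_iff.mp h]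
    exact Nat.zero_le _

lemma even_one (K : ℕ) (C : ℕ →₀ ℕ) (hE : Ev (K + 1) C) (hz : ∀ i, K < i → C i = 0)
    (hM : Even (C.sum fun i c => i * c)) : 2 ∣ C 1 := by
  have h1 : (C.sum fun i c => i * c) = ∑ i ∈ C.support ∪ {1}, i * C i :=
    Finsupp.sum_of_support_subset C (Finset.subset_union_left) (fun i c => i * c) (by simp)
  have h2 : ∑ i ∈ C.support ∪ {1}, i * C i =
      1 * C 1 + ∑ i ∈ (C.support ∪ {1}).erase 1, i * C i := by
    rw [Finset.add_sum_erase _ (fun i => i * C i)]
    simp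
  have h3 : 2 ∣ ∑ i ∈ (C.support ∪ {1}).erase 1, i * C i := by
    refine Finset.dvd_sum (fun i hi => ?_)
    have hi1 : i ≠ 1 := (Finset.mem_erase.mp hi).1
    by_cases hev : 2 ∣ i
    · exact Dvd.dvd.mul_right hev _
    · refine Dvd.dvd.mul_left ?_ _
      by_cases hK : K < i
      · rw [hz i hK]
        exact dvd_zero 2
      · refine hE i ?_ (by omega) hev
        rcases Nat.lt_or_ge i 3 with h | h
        · interval_cases i
          · exact absurd (dvd_zero 2) hev
          · exact absurd rfl hi1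
          · exact absurd (dvd_refl 2) hev
        · exact h
  have h4 : 2 ∣ (C.sum fun i c => i * c) := hM.two_dvd
  rw [h1, h2, one_mul] at h4
  exact (Nat.dvd_add_left h3).mp h4

open Classical in
theorem pfx (pst : PstStmt) (flo : FloStmt) (pnn : PnnStmt) (pho : PhoStmt) (sqm : SqmStmt) :
    PfxStmt := by
  intro K d hK hev
  set M := d.sum with hM
  have hM0 : (0 : ℝ) ≤ (M : ℝ) := Nat.cast_nonneg M
  have hMr : (1 : ℝ) ≤ (M : ℝ) + 1 := by linarith
  have hKr : (6 : ℝ) ≤ (K : ℝ) := by exact_mod_cast hK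
  have hpowK : (1 : ℝ) ≤ ((M : ℝ) + 1) ^ K := one_le_pow₀ hMr
  have hB1 : (1 : ℝ) ≤ 3 * ((M : ℝ) + 1) ^ K := by linarith
  have hFh : ∀ j c, 0 < Fh M j c := by
    intro j c
    unfold Fh
    exact Finset.prod_pos (fun i _ => (sqm M j (i + 1) (i + 1) le_rfl).1)
  have hFr : ∀ j c, 0 ≤ Fr j c := fun j c => Nat.cast_nonneg _
  have hPnn : ∀ t, 0 ≤ Pht K t d := by
    intro t
    unfold Pht
    exact Finset.sum_nonneg (fun C _ => mul_nonneg (pnn K d C).1
      (Finset.prod_nonneg (fun j _ => (hFh _ _).le)))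
  -- the iteration
  have hiter : ∀ n, n ≤ K - 2 → Pht K 3 d ≤ (3 * ((M : ℝ) + 1) ^ K) ^ n * Pht K (3 + n) d := by
    intro n
    induction n with
    | zero => intro _; simp
    | succ n ih =>
      intro hn
      have h1 := ih (by omega)
      have h2 := pst K (3 + n) d hK (by omega) (by omega)
      calc Pht K 3 d ≤ (3 * ((M : ℝ) + 1) ^ K) ^ n * Pht K (3 + n) d := h1
        _ ≤ (3 * ((M : ℝ) + 1) ^ K) ^ n * (3 * ((M : ℝ) + 1) ^ K * Pht K (3 + n + 1) d) :=
            mul_le_mul_of_nonneg_left h2 (by positivity)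
        _ = (3 * ((M : ℝ) + 1) ^ K) ^ (n + 1) * Pht K (3 + (n + 1)) d := by
            rw [pow_succ]
            ring_nf
  have h3 : Pht K 3 d = Phi (K + M) (Fh M) (PS K Xv d) := by
    unfold Pht Phi
    rw [Finset.filter_true_of_mem]
    intro C _ i hi hi3
    omega
  have hstep1 : Phi (K + M) (Fh M) (PS K Xv d) ≤
      (3 * ((M : ℝ) + 1) ^ K) ^ K * Pht K (K + 1) d := by
    rw [← h3]
    refine (hiter (K - 2) le_rfl).trans ?_
    have e : 3 + (K - 2) = K + 1 := by omega
    rw [e]
    exact mul_le_mul_of_nonneg_right (pow_le_pow_right₀ hB1 (by omega)) (hPnn _)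
  -- the comparison
  have hstep2 : Pht K (K + 1) d ≤ (3 * K * ((M : ℝ) + 1)) ^ K * Phi (K + M) Fr (PS K Xv d) := by
    have hcmp : ∀ C ∈ (PS K Xv d).support.filter (Ev (K + 1)),
        (PS K Xv d).coeff C * ∏ j ∈ range (K + M), Fh M (j + 1) (C (j + 1)) ≤
          (3 * K * ((M : ℝ) + 1)) ^ K *
            ((PS K Xv d).coeff C * ∏ j ∈ range (K + M), Fr (j + 1) (C (j + 1))) := by
      intro C hC
      rw [Finset.mem_filter] at hC
      obtain ⟨hCs, hCe⟩ := hC
      obtain ⟨hsum, -, hz⟩ := (pho K d hK).2 C hCs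
      have hone : 2 ∣ C 1 := even_one K C hCe hz (by rw [hsum]; exact hev)
      have hCM : ∀ i, 1 ≤ i → C i ≤ M := by
        intro i hi
        have h := le_wsum C i hi
        rw [hsum] at h
        exact h
      have hprod : ∏ j ∈ range (K + M), Fh M (j + 1) (C (j + 1)) ≤
          ∏ j ∈ range (K + M), ((if j < K then 3 * (K : ℝ) * ((M : ℝ) + 1) else 1) *
            Fr (j + 1) (C (j + 1))) := by
        refine Finset.prod_le_prod (fun j _ => (hFh _ _).le) (fun j _ => ?_)
        by_cases hj : j < K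
        · rw [if_pos hj]
          have hpar : 2 ∣ (j + 1) ∨ 2 ∣ C (j + 1) := by
            by_cases he : 2 ∣ (j + 1)
            · exact Or.inl he
            · right
              by_cases h0 : j = 0
              · subst h0
                exact hone
              · exact hCe (j + 1) (by omega) (by omega) he
          have h := flo M (j + 1) (C (j + 1)) (by omega) (hCM _ (by omega)) hpar
          refine h.trans ?_
          refine mul_le_mul_of_nonneg_right ?_ (hFr _ _)
          have hjK : ((j + 1 : ℕ) : ℝ) ≤ (K : ℝ) := by exact_mod_cast hj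
          have hc : ((C (j + 1) : ℕ) : ℝ) ≤ (M : ℝ) := by exact_mod_cast hCM (j + 1) (by omega)
          have hj0 : (0 : ℝ) ≤ ((j + 1 : ℕ) : ℝ) := Nat.cast_nonneg _
          have hc0 : (0 : ℝ) ≤ ((C (j + 1) : ℕ) : ℝ) := Nat.cast_nonneg _
          have h5 : 3 * ((j + 1 : ℕ) : ℝ) * ((C (j + 1) : ℕ) + 1 : ℝ) ≤
              3 * (K : ℝ) * ((M : ℝ) + 1) := by
            apply mul_le_mul
            · linarith
            · linarith
            · linarith
            · linarith
          exact h5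
        · rw [if_neg hj, one_mul, hz (j + 1) (by omega)]
          have e1 : Fh M (j + 1) 0 = 1 := by simp [Fh]
          have e2 : Fr (j + 1) 0 = 1 := by simp [Fr, F]
          rw [e1, e2]
      have hcoef : 0 ≤ (PS K Xv d).coeff C := (pnn K d C).1
      have hite : ∏ j ∈ range (K + M), (if j < K then 3 * (K : ℝ) * ((M : ℝ) + 1) else 1) =
          (3 * K * ((M : ℝ) + 1)) ^ K := by
        rw [Finset.prod_ite, Finset.prod_const, Finset.prod_const_one, mul_one]
        congr 1
        have : (range (K + M)).filter (fun j => j < K) = range K := by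
          ext j
          simp only [Finset.mem_filter, Finset.mem_range]
          omega
        rw [this, Finset.card_range]
      rw [Finset.prod_mul_distrib, hite] at hprod
      calc (PS K Xv d).coeff C * ∏ j ∈ range (K + M), Fh M (j + 1) (C (j + 1))
          ≤ (PS K Xv d).coeff C * ((3 * K * ((M : ℝ) + 1)) ^ K *
              ∏ j ∈ range (K + M), Fr (j + 1) (C (j + 1))) :=
            mul_le_mul_of_nonneg_left hprod hcoef
        _ = _ := by ring
    calc Pht K (K + 1) d
        = ∑ C ∈ (PS K Xv d).support.filter (Ev (K + 1)),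
          (PS K Xv d).coeff C * ∏ j ∈ range (K + M), Fh M (j + 1) (C (j + 1)) := rfl
      _ ≤ ∑ C ∈ (PS K Xv d).support.filter (Ev (K + 1)), (3 * K * ((M : ℝ) + 1)) ^ K *
            ((PS K Xv d).coeff C * ∏ j ∈ range (K + M), Fr (j + 1) (C (j + 1))) :=
          Finset.sum_le_sum hcmp
      _ = (3 * K * ((M : ℝ) + 1)) ^ K * ∑ C ∈ (PS K Xv d).support.filter (Ev (K + 1)),
            ((PS K Xv d).coeff C * ∏ j ∈ range (K + M), Fr (j + 1) (C (j + 1))) := by
          rw [Finset.mul_sum]
      _ ≤ (3 * K * ((M : ℝ) + 1)) ^ K * Phi (K + M) Fr (PS K Xv d) := by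
          refine mul_le_mul_of_nonneg_left ?_ (by positivity)
          unfold Phi
          refine Finset.sum_le_sum_of_subset_of_nonneg (Finset.filter_subset _ _) ?_
          intro C _ _
          exact mul_nonneg (pnn K d C).1 (Finset.prod_nonneg (fun j _ => hFr _ _))
  calc Phi (K + M) (Fh M) (PS K Xv d)
      ≤ (3 * ((M : ℝ) + 1) ^ K) ^ K * Pht K (K + 1) d := hstep1
    _ ≤ (3 * ((M : ℝ) + 1) ^ K) ^ K *
        ((3 * K * ((M : ℝ) + 1)) ^ K * Phi (K + M) Fr (PS K Xv d)) :=
        mul_le_mul_of_nonneg_left hstep2 (by positivity)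
    _ = _ := by ring

end Pool.Agent.UMG.A.H33
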