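import Pool.Agent.UMG.StmtsA

/-!
# Row PST: one parity step
-/

set_option autoImplicit false

namespace Pool.Agent.UMG.A.H33

open Finset Pool.Agent.UMG

/-- the weight of a monomial -/
noncomputable def W (K M : ℕ) (C : ℕ →₀ ℕ) : ℝ := ∏ j ∈ range (K + M), Fh M (j + 1) (C (j + 1))

lemma fh_pos (sqm : SqmStmt) (M j c : ℕ) : 0 < Fh M j c := by
  unfold Fh
  exact Finset.prod_pos (fun i _ => (sqm M j (i + 1) (i + 1) le_rfl).1)

lemma w_pos (sqm : SqmStmt) (K M : ℕ) (C : ℕ →₀ ℕ) : 0 < W K M C := by
  unfold W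
  exact Finset.prod_pos (fun i _ => fh_pos sqm M _ _)

/-- the shift -/
noncomputable def sh (j : ℕ) (C : ℕ →₀ ℕ) : ℕ →₀ ℕ := (C - Finsupp.single j 1) + Finsupp.single 1 j

lemma sh_one (j : ℕ) (hj : 3 ≤ j) (C : ℕ →₀ ℕ) : sh j C 1 = C 1 + j := by
  have h1 : j ≠ 1 := by omega
  simp [sh, h1]

lemma sh_self (j : ℕ) (hj : 3 ≤ j) (C : ℕ →₀ ℕ) : sh j C j = C j - 1 := by
  have h1 : (1 : ℕ) ≠ j := by omega
  simp [sh, h1]

lemma sh_other (j : ℕ) (C : ℕ →₀ ℕ) (i : ℕ) (h1 : i ≠ 1) (h2 : i ≠ j) : sh j C i = C i := by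
  have h1' : (1 : ℕ) ≠ i := fun h => h1 h.symm
  have h2' : j ≠ i := fun h => h2 h.symm
  simp [sh, h1', h2']

lemma sh_inj (j : ℕ) (hj : 3 ≤ j) (C D : ℕ →₀ ℕ) (hC : 1 ≤ C j) (hD : 1 ≤ D j)
    (h : sh j C = sh j D) : C = D := by
  ext i
  have hi : sh j C i = sh j D i := by rw [h]
  by_cases h1 : i = 1
  · subst h1
    rw [sh_one j hj, sh_one j hj] at hi
    omega
  · by_cases h2 : i = j
    · subst h2
      rw [sh_self i hj, sh_self i hj] at hi
      omega
    · rwa [sh_other j C i h1 h2, sh_other j D i h1 h2] at hi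

lemma fh_mono (sqb : SqbStmt) (sqm : SqmStmt) (M c n : ℕ) : Fh M 1 c ≤ Fh M 1 (c + n) := by
  induction n with
  | zero => simp
  | succ n ih =>
    refine le_trans ih ?_
    have hstep : Fh M 1 (c + (n + 1)) = Fh M 1 (c + n) * sq M 1 (c + n + 1) := by
      unfold Fh
      rw [← add_assoc, Finset.prod_range_succ]
    rw [hstep]
    have hpos := fh_pos sqm M 1 (c + n)
    have hs : (1 : ℝ) ≤ sq M 1 (c + n + 1) := by
      have h := (sqb M 1 (c + n + 1)).1
      have h1 : (1 : ℝ) ≤ Real.sqrt (((1 : ℕ) : ℝ) * ((c + n + 1 : ℕ) : ℝ)) := by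
        rw [Real.one_le_sqrt]
        push_cast
        nlinarith [(Nat.cast_nonneg c : (0 : ℝ) ≤ c), (Nat.cast_nonneg n : (0 : ℝ) ≤ n)]
      rw [if_neg (by omega)] at h
      linarith
    nlinarith

lemma w_le (sqb : SqbStmt) (sqm : SqmStmt) (K M j : ℕ) (hj : 3 ≤ j) (hjK : j ≤ K)
    (C : ℕ →₀ ℕ) (hC : 1 ≤ C j) : W K M C ≤ sq M j (C j) * W K M (sh j C) := by
  have hs : 0 < sq M j (C j) := (sqm M j (C j) (C j) le_rfl).1
  have h1 : W K M C ≤ ∏ i ∈ range (K + M),
      ((if i = j - 1 then sq M j (C j) else 1) * Fh M (i + 1) (sh j C (i + 1))) := by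
    unfold W
    refine Finset.prod_le_prod (fun i _ => (fh_pos sqm M _ _).le) (fun i _ => ?_)
    by_cases h : i = j - 1
    · have hi : i + 1 = j := by omega
      rw [if_pos h, hi, sh_self j hj]
      have hstep : Fh M j (C j) = Fh M j (C j - 1) * sq M j (C j) := by
        obtain ⟨c, hc⟩ : ∃ c, C j = c + 1 := ⟨C j - 1, by omega⟩
        rw [hc]
        unfold Fh
        rw [Finset.prod_range_succ]
        rfl
      rw [hstep, mul_comm]
    · rw [if_neg h, one_mul]
      by_cases h0 : i = 0
      · subst h0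
        rw [zero_add, sh_one j hj]
        exact fh_mono sqb sqm M _ _
      · rw [sh_other j C (i + 1) (by omega) (by omega)]
  refine h1.trans (le_of_eq ?_)
  rw [Finset.prod_mul_distrib]
  congr 1
  rw [Finset.prod_ite_eq']
  rw [if_pos]
  rw [Finset.mem_range]
  omega

lemma sq_le (sqb : SqbStmt) (M j c : ℕ) (hj : 3 ≤ j) (hodd : ¬ 2 ∣ j) (hc : 1 ≤ c) :
    sq M j c ≤ 2 * ((j : ℝ) * c) := by
  have h := (sqb M j c).2
  rw [if_neg hodd] at h
  have hjr : (3 : ℝ) ≤ j := by exact_mod_cast hj
  have hcr : (1 : ℝ) ≤ c := by exact_mod_cast hc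
  have hjc : (1 : ℝ) ≤ (j : ℝ) * c := by nlinarith
  have h1 : Real.sqrt ((j : ℝ) * c) ≤ (j : ℝ) * c := by
    rw [Real.sqrt_le_left (by linarith)]
    nlinarith
  have h2 : (1 : ℝ) / ((M : ℝ) + 1) ≤ 1 := by
    rw [div_le_one (by positivity)]
    linarith [(Nat.cast_nonneg M : (0 : ℝ) ≤ M)]
  linarith

open Classical in
theorem pst (par : ParStmt) (pnn : PnnStmt) (pho : PhoStmt) (sqb : SqbStmt) (sqm : SqmStmt) :
    PstStmt := by
  intro K j d hK hj hjK
  set M := d.sum with hM
  have hMr : (1 : ℝ) ≤ (M : ℝ) + 1 := by linarith [(Nat.cast_nonneg M : (0 : ℝ) ≤ M)]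
  have hpowK : (1 : ℝ) ≤ ((M : ℝ) + 1) ^ K := one_le_pow₀ hMr
  have hW : ∀ C : ℕ →₀ ℕ, ∏ i ∈ range (K + M), Fh M (i + 1) (C (i + 1)) = W K M C := fun _ => rfl
  have hdef : ∀ t, Pht K t d = ∑ C ∈ (PS K Xv d).support.filter (Ev t),
      (PS K Xv d).coeff C * W K M C := fun t => rfl
  have hnn : ∀ C, 0 ≤ (PS K Xv d).coeff C * W K M C := fun C =>
    mul_nonneg (pnn K d C).1 (w_pos sqm K M C).le
  have hPnn : 0 ≤ Pht K (j + 1) d := by
    rw [hdef]
    exact Finset.sum_nonneg (fun C _ => hnn C)
  by_cases hodd : 2 ∣ j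
  · -- nothing to do
    have hEv : ∀ C : ℕ →₀ ℕ, Ev j C ↔ Ev (j + 1) C := by
      intro C
      constructor
      · intro h i hi hij hio
        have : i ≠ j := fun he => hio (he ▸ hodd)
        exact h i hi (by omega) hio
      · intro h i hi hij hio
        exact h i hi (by omega) hio
    have heq : Pht K j d = Pht K (j + 1) d := by
      rw [hdef, hdef]
      congr 1
      exact Finset.filter_congr (fun C _ => hEv C)
    rw [heq]
    nlinarith
  · -- the odd step
    have hcls := par K j d hj hjK hodd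
    set p := PS K Xv d with hp
    -- the key estimate
    have key : ∀ C ∈ p.support.filter (Ev j), ¬ 2 ∣ C j →
        sh j C ∈ p.support.filter (Ev (j + 1)) ∧
          p.coeff C * W K M C ≤ 2 * ((M : ℝ) + 1) ^ j * (p.coeff (sh j C) * W K M (sh j C)) := by
      intro C hC hCj
      rw [Finset.mem_filter] at hC
      obtain ⟨hCs, hCe⟩ := hC
      have hCj1 : 1 ≤ C j := by
        rcases Nat.eq_zero_or_pos (C j) with h0 | h0
        · exact absurd (h0 ▸ dvd_zero 2) hCj
        · exact h0
      have hpC : 0 < p.coeff C := by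
        have h1 := (pnn K d C).1
        have h2 : p.coeff C ≠ 0 := MvPolynomial.mem_support_iff.mp hCs
        exact lt_of_le_of_ne h1 (Ne.symm h2)
      have hc := hcls.2 (C - Finsupp.single j 1)
      have e1 : (C - Finsupp.single j 1) + Finsupp.single j 1 = C := by
        ext i
        by_cases h : j = i
        · subst h
          simp
          omega
        · simp [h]
      have e2 : (C - Finsupp.single j 1 : ℕ →₀ ℕ) j = C j - 1 := by simp
      have e3 : (C - Finsupp.single j 1 : ℕ →₀ ℕ) 1 = C 1 := by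
        have : j ≠ 1 := by omega
        simp [this]
      have e4 : (C - Finsupp.single j 1) + Finsupp.single 1 j = sh j C := rfl
      rw [e1, e2, e3, e4] at hc
      have e5 : ((C j - 1 : ℕ) : ℝ) + 1 = (C j : ℝ) := by
        rw [Nat.cast_sub hCj1]
        push_cast
        ring
      rw [e5] at hc
      -- the degree
      have hdeg : C 1 + j ≤ M := by
        have h := ((pho K d hK).2 C hCs).1
        have hsum : C 1 + j * C j ≤ C.sum fun i c => i * c := by
          have h1j : (1 : ℕ) ≠ j := by omega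
          rw [Finsupp.sum_of_support_subset C (Finset.subset_union_left (s₂ := {1, j}))
            (fun i c => i * c) (by simp)]
          have hsub : ({1, j} : Finset ℕ) ⊆ C.support ∪ {1, j} := Finset.subset_union_right
          have h2 := Finset.sum_le_sum_of_subset (f := fun i => i * C i) hsub
          rw [Finset.sum_pair h1j] at h2
          simpa using h2
        have h3 : j * 1 ≤ j * C j := Nat.mul_le_mul_left _ hCj1
        omega
      have hdesc : (((C 1 + j).descFactorial j : ℕ) : ℝ) ≤ ((M : ℝ) + 1) ^ j := by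
        have h1 : (C 1 + j).descFactorial j ≤ (M + 1) ^ j :=
          (Nat.descFactorial_le_pow _ _).trans (Nat.pow_le_pow_left (by omega) _)
        exact_mod_cast h1
      have hjr : (3 : ℝ) ≤ j := by exact_mod_cast hj
      have hCr : (1 : ℝ) ≤ (C j : ℝ) := by exact_mod_cast hCj1
      have hshn : 0 ≤ p.coeff (sh j C) := (pnn K d _).1
      have hlow : (j : ℝ) * (C j : ℝ) * p.coeff C ≤ ((M : ℝ) + 1) ^ j * p.coeff (sh j C) :=
        hc.trans (mul_le_mul_of_nonneg_right hdesc hshn)
      have hprod : 0 < (j : ℝ) * (C j : ℝ) * p.coeff C := by positivity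
      have hshpos : 0 < p.coeff (sh j C) := by
        by_contra hcon
        have h0 : p.coeff (sh j C) = 0 := le_antisymm (not_lt.mp hcon) hshn
        rw [h0, mul_zero] at hlow
        linarith
      refine ⟨?_, ?_⟩
      · rw [Finset.mem_filter]
        refine ⟨MvPolynomial.mem_support_iff.mpr hshpos.ne', ?_⟩
        intro i hi hij hio
        by_cases hij' : i = j
        · subst hij'
          rw [sh_self i hj]
          omega
        · rw [sh_other j C i (by omega) hij']
          exact hCe i hi (by omega) hio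
      · have hw := w_le sqb sqm K M j hj hjK C hCj1
        have hs := sq_le sqb M j (C j) hj hodd hCj1
        have hWs := w_pos sqm K M (sh j C)
        calc p.coeff C * W K M C ≤ p.coeff C * (sq M j (C j) * W K M (sh j C)) :=
              mul_le_mul_of_nonneg_left hw hpC.le
          _ ≤ p.coeff C * (2 * ((j : ℝ) * (C j : ℝ)) * W K M (sh j C)) :=
              mul_le_mul_of_nonneg_left (mul_le_mul_of_nonneg_right hs hWs.le) hpC.le
          _ = 2 * ((j : ℝ) * (C j : ℝ) * p.coeff C) * W K M (sh j C) := by ring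
          _ ≤ 2 * (((M : ℝ) + 1) ^ j * p.coeff (sh j C)) * W K M (sh j C) := by
              apply mul_le_mul_of_nonneg_right _ hWs.le
              linarith
          _ = 2 * ((M : ℝ) + 1) ^ j * (p.coeff (sh j C) * W K M (sh j C)) := by ring
    -- the sum
    have hsplit : Pht K j d = ∑ C ∈ (p.support.filter (Ev j)).filter (fun C => 2 ∣ C j),
          p.coeff C * W K M C +
        ∑ C ∈ (p.support.filter (Ev j)).filter (fun C => ¬ 2 ∣ C j), p.coeff C * W K M C := by
      rw [hdef, Finset.sum_filter_add_sum_filter_not]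
    have hfirst : ∑ C ∈ (p.support.filter (Ev j)).filter (fun C => 2 ∣ C j),
        p.coeff C * W K M C ≤ Pht K (j + 1) d := by
      rw [hdef]
      refine Finset.sum_le_sum_of_subset_of_nonneg ?_ (fun C _ _ => hnn C)
      intro C hC
      rw [Finset.mem_filter, Finset.mem_filter] at hC
      rw [Finset.mem_filter]
      refine ⟨hC.1.1, ?_⟩
      intro i hi hij hio
      by_cases hij' : i = j
      · subst hij'
        exact hC.2
      · exact hC.1.2 i hi (by omega) hio
    have hsecond : ∑ C ∈ (p.support.filter (Ev j)).filter (fun C => ¬ 2 ∣ C j),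
        p.coeff C * W K M C ≤ 2 * ((M : ℝ) + 1) ^ j * Pht K (j + 1) d := by
      calc ∑ C ∈ (p.support.filter (Ev j)).filter (fun C => ¬ 2 ∣ C j), p.coeff C * W K M C
          ≤ ∑ C ∈ (p.support.filter (Ev j)).filter (fun C => ¬ 2 ∣ C j),
            2 * ((M : ℝ) + 1) ^ j * (p.coeff (sh j C) * W K M (sh j C)) := by
            refine Finset.sum_le_sum (fun C hC => ?_)
            rw [Finset.mem_filter] at hC
            exact (key C hC.1 hC.2).2
        _ = 2 * ((M : ℝ) + 1) ^ j * ∑ C ∈ (p.support.filter (Ev j)).filter (fun C => ¬ 2 ∣ C j),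
            (p.coeff (sh j C) * W K M (sh j C)) := by rw [Finset.mul_sum]
        _ = 2 * ((M : ℝ) + 1) ^ j *
            ∑ C ∈ ((p.support.filter (Ev j)).filter (fun C => ¬ 2 ∣ C j)).image (sh j),
            (p.coeff C * W K M C) := by
            congr 1
            rw [Finset.sum_image]
            intro C hC D hD h
            have hC' := Finset.mem_coe.mp hC
            have hD' := Finset.mem_coe.mp hD
            rw [Finset.mem_filter] at hC' hD'
            have h1 : 1 ≤ C j := by
              rcases Nat.eq_zero_or_pos (C j) with h0 | h0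
              · exact absurd (h0 ▸ dvd_zero 2) hC'.2
              · exact h0
            have h2 : 1 ≤ D j := by
              rcases Nat.eq_zero_or_pos (D j) with h0 | h0
              · exact absurd (h0 ▸ dvd_zero 2) hD'.2
              · exact h0
            exact sh_inj j hj C D h1 h2 h
        _ ≤ 2 * ((M : ℝ) + 1) ^ j * Pht K (j + 1) d := by
            refine mul_le_mul_of_nonneg_left ?_ (by positivity)
            rw [hdef]
            refine Finset.sum_le_sum_of_subset_of_nonneg ?_ (fun C _ _ => hnn C)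
            intro D hD
            rw [Finset.mem_image] at hD
            obtain ⟨C, hC, rfl⟩ := hD
            rw [Finset.mem_filter] at hC
            exact (key C hC.1 hC.2).1
    have hpow : ((M : ℝ) + 1) ^ j ≤ ((M : ℝ) + 1) ^ K := pow_le_pow_right₀ hMr hjK
    rw [hsplit]
    nlinarith

end Pool.Agent.UMG.A.H33
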